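import Pool.Agent.Q265.KT.Rel

/-!
# MP_14d42b_co, Q1 (negated form), for every `t ≥ 3`, with a power saving

Graphs `G` are restrictions to `Fin n` of tensor powers of the complement (with loops) of a
point-line incidence graph; for this base relation the homomorphism inequality
`t(K_{3,t}) ≥ t(K_3)^t` fails.
-/

set_option autoImplicit false
open Finset SimpleGraph Filter Topology

namespace Pool.Agent.Results.MP_14d42b_co.TriangleSupersatFails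

open Pool.Agent.Q265.KT

/-- the numerical part -/
theorem numeric (t m n Tc Hc C3 Ct Xc : ℕ) (r s c γ k₀ : ℝ) (hX : (8 : ℝ) ≤ Xc) (hr0 : 0 < r) (hs : 0 < s)
    (hn : n = Xc ^ m) (hL : Tc ^ m ≤ 6 * C3 + 3 * n ^ 2) (hLt : Ct ≤ Hc ^ m)
    (hT : (Tc : ℝ) = (Xc : ℝ) ^ 3 * r) (hH : (Hc : ℝ) ≤ (Xc : ℝ) ^ (3 + t) * s)
    (hc1 : 1 < c) (hrs : r ^ t = c ^ 2 * s) (hNg : (Xc : ℝ) ^ γ = c)
    (h1a : 6 ≤ ((Xc : ℝ) * r) ^ m) (h1b : 12 * k₀ ≤ ((Xc : ℝ) * r) ^ m) (h2 : (12 : ℝ) ^ t < c ^ m) :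
    ∃ k : ℝ, (C3 : ℝ) = k * (n : ℝ) ^ 2 ∧ k₀ ≤ k ∧ (Ct : ℝ) < k ^ t * (n : ℝ) ^ (3 - γ) := by
  set N : ℝ := (Xc : ℝ) with hN
  have hNpos : 0 < N := by linarith
  have hnN : (n : ℝ) = N ^ m := by rw [hn, hN]; push_cast; rfl
  have hnpos : (0 : ℝ) < n := by rw [hnN]; positivity
  have hLR : (n : ℝ) ^ 3 * r ^ m ≤ 6 * C3 + 3 * (n : ℝ) ^ 2 := by
    have : (Tc : ℝ) ^ m ≤ 6 * C3 + 3 * (n : ℝ) ^ 2 := by exact_mod_cast hL
    rw [hT] at this
    have h4 : (N ^ 3 * r) ^ m = (n : ℝ) ^ 3 * r ^ m := by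
      rw [hnN, mul_pow, ← pow_mul, ← pow_mul, mul_comm 3 m]
    rwa [h4] at this
  have hNrm : (N * r) ^ m = n * r ^ m := by rw [mul_pow, hnN]
  rw [hNrm] at h1a h1b
  have hk1 : (n * r ^ m) / 12 ≤ C3 / (n : ℝ) ^ 2 := by
    rw [le_div_iff₀ (by positivity)]
    have h5 : 3 * (n : ℝ) ^ 2 ≤ (n * r ^ m) / 2 * (n : ℝ) ^ 2 :=
      mul_le_mul_of_nonneg_right (by linarith) (by positivity)
    have h6 : (n : ℝ) ^ 3 * r ^ m = (n * r ^ m) * (n : ℝ) ^ 2 := by ring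
    nlinarith
  set k : ℝ := C3 / (n : ℝ) ^ 2 with hk
  refine ⟨k, ?_, ?_, ?_⟩
  · rw [hk]; field_simp
  · linarith
  · -- the upper bound
    have hCt1 : (Ct : ℝ) ≤ (n : ℝ) ^ (3 + t) * s ^ m := by
      have h7 : (Ct : ℝ) ≤ (Hc : ℝ) ^ m := by
        exact_mod_cast hLt
      refine h7.trans ?_
      have h8 : (Hc : ℝ) ^ m ≤ (N ^ (3 + t) * s) ^ m :=
        pow_le_pow_left₀ (Nat.cast_nonneg _) hH m
      refine h8.trans (le_of_eq ?_)
      rw [hnN, mul_pow, ← pow_mul, ← pow_mul, mul_comm (3 + t) m]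
    have hng : (n : ℝ) ^ (3 - γ) = (n : ℝ) ^ 3 / c ^ m := by
      rw [Real.rpow_sub hnpos]
      congr 1
      · norm_cast
      · rw [hnN, ← Real.rpow_natCast, ← Real.rpow_mul hNpos.le, mul_comm (m : ℝ) γ, Real.rpow_mul hNpos.le, hNg,
          Real.rpow_natCast]
    have hcpos : 0 < c := by linarith
    have hkt : ((n * r ^ m) / 12) ^ t ≤ k ^ t := pow_le_pow_left₀ (by positivity) hk1 t
    have h9 : (n : ℝ) ^ (3 + t) * s ^ m < ((n * r ^ m) / 12) ^ t * ((n : ℝ) ^ 3 / c ^ m) := by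
      have h10 : ((n * r ^ m) / 12) ^ t * ((n : ℝ) ^ 3 / c ^ m) =
          ((n : ℝ) ^ (3 + t) * s ^ m) * (c ^ m / 12 ^ t) := by
        have h11 : (r ^ m) ^ t = (c ^ m) ^ 2 * s ^ m := by
          rw [← pow_mul, mul_comm m t, pow_mul, hrs, mul_pow, ← pow_mul, ← pow_mul, mul_comm 2 m]
        rw [div_pow, mul_pow, h11, pow_add]
        field_simp
      rw [h10]
      have h12 : 1 < c ^ m / 12 ^ t := by
        rw [one_lt_div (by positivity)]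
        exact h2
      have h13 : 0 < (n : ℝ) ^ (3 + t) * s ^ m := by positivity
      exact (lt_mul_iff_one_lt_right h13).2 h12
    rw [hng]
    calc (Ct : ℝ) ≤ _ := hCt1
      _ < _ := h9
      _ ≤ _ := mul_le_mul_of_nonneg_right hkt (by positivity)

theorem power_saving (t : ℕ) (ht : 3 ≤ t) : ∃ γ : ℝ, 0 < γ ∧ ∀ (k₀ : ℝ) (n₀ : ℕ),
    ∃ (n : ℕ) (G : SimpleGraph (Fin n)) (k : ℝ), n₀ ≤ n ∧
      (G.copyCount (⊤ : SimpleGraph (Fin 3)) : ℝ) = k * (n : ℝ) ^ 2 ∧ k₀ ≤ k ∧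
      (G.copyCount (completeBipartiteGraph (Fin 3) (Fin t)) : ℝ) < k ^ t * (n : ℝ) ^ (3 - γ) := by
  obtain ⟨X, instX, R, hR, r, s, hX, hr, hs, hsr, hT, hH⟩ := exists_base t (by omega)
  have hrt : 0 < r ^ t := lt_trans hs hsr
  obtain ⟨c, hc⟩ : ∃ c : ℝ, c = Real.sqrt (r ^ t / s) := ⟨_, rfl⟩
  have hcsq : c ^ 2 = r ^ t / s := by rw [hc]; exact Real.sq_sqrt (by positivity)
  have hc1 : 1 < c := by
    rw [hc, Real.lt_sqrt (by norm_num)]
    rw [one_pow, one_lt_div hs]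
    exact hsr
  have hrs : r ^ t = c ^ 2 * s := by rw [hcsq]; field_simp
  have hNpos : (0 : ℝ) < Nat.card X := by linarith
  have hlogN : 0 < Real.log (Nat.card X) := Real.log_pos (by linarith)
  refine ⟨Real.log c / Real.log (Nat.card X), div_pos (Real.log_pos hc1) hlogN, fun k₀ n₀ => ?_⟩
  have hNg : (Nat.card X : ℝ) ^ (Real.log c / Real.log (Nat.card X)) = c := by
    rw [Real.rpow_def_of_pos hNpos, mul_div_cancel₀ _ hlogN.ne', Real.exp_log (by linarith)]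
  -- choose m
  have hNr : 1 < (Nat.card X : ℝ) * r := by nlinarith
  have e1 : ∀ᶠ m : ℕ in atTop, max 6 (12 * k₀) ≤ ((Nat.card X : ℝ) * r) ^ m :=
    (tendsto_pow_atTop_atTop_of_one_lt hNr).eventually_ge_atTop _
  have e2 : ∀ᶠ m : ℕ in atTop, (12 : ℝ) ^ t < c ^ m :=
    (tendsto_pow_atTop_atTop_of_one_lt hc1).eventually_gt_atTop _
  have e3 : ∀ᶠ m : ℕ in atTop, (n₀ : ℝ) ≤ (Nat.card X : ℝ) ^ m :=
    (tendsto_pow_atTop_atTop_of_one_lt (by linarith : (1 : ℝ) < Nat.card X)).eventually_ge_atTop _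
  obtain ⟨m, h1, h2, h3⟩ := (e1.and (e2.and e3)).exists
  have hn' : Nat.card (Fin m → X) = Nat.card X ^ m := by simp
  obtain ⟨n, hn⟩ : ∃ n, n = Nat.card X ^ m := ⟨_, rfl⟩
  have e : Fin n ≃ (Fin m → X) := by
    rw [hn, ← hn']; exact (Finite.equivFin _).symm
  have hL3 := labelled_lower R hR m n e
  have hL3' := labelled_le (tg R hR m n e) (⊤ : SimpleGraph (Fin 3))
  have hLt := labelled_upper R hR m n t e
  have hLt' := copyCount_le_labelledCopyCount (G := tg R hR m n e) (H := completeBipartiteGraph (Fin 3) (Fin t))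
  have hfac : (Fintype.card (Fin 3)).factorial = 6 := by simp [Nat.factorial]
  rw [hfac] at hL3'
  rw [← hn] at hL3
  have hL := hL3.trans (Nat.add_le_add_right hL3' _)
  obtain ⟨k, hk1, hk2, hk3⟩ := numeric t m n (Nat.card (TT R)) (Nat.card (HH R t)) _ _ (Nat.card X) r s c
    (Real.log c / Real.log (Nat.card X)) k₀ hX (by linarith) hs hn hL (hLt'.trans hLt) hT hH hc1 hrs hNg
    ((le_max_left _ _).trans h1) ((le_max_right _ _).trans h1) h2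
  refine ⟨n, tg R hR m n e, k, ?_, hk1, hk2, hk3⟩
  rw [hn]
  exact_mod_cast h3

/-- **Q1 of MP_14d42b_co is false for every `t ≥ 3`**, with a fixed power of `n` to spare.
`G.copyCount F` is Mathlib's number of subgraphs of `G` isomorphic to `F`.
For any `ε` tending to `0` apply it with `n₀` such that `ε n < γ` for all `n ≥ n₀`. -/
theorem result (t : ℕ) (ht : 3 ≤ t) : ∃ γ : ℝ, 0 < γ ∧ ∀ (k₀ : ℝ) (n₀ : ℕ),
    ∃ (n : ℕ) (G : SimpleGraph (Fin n)) (k : ℝ), n₀ ≤ n ∧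
      (G.copyCount (⊤ : SimpleGraph (Fin 3)) : ℝ) = k * (n : ℝ) ^ 2 ∧ k₀ ≤ k ∧
      (G.copyCount (completeBipartiteGraph (Fin 3) (Fin t)) : ℝ) < k ^ t * (n : ℝ) ^ (3 - γ) :=
  power_saving t ht

/-- the literal negated form of the question, for every `t ≥ 3` -/
theorem negated_form (t : ℕ) (ht : 3 ≤ t) (k₀ : ℝ) (ε : ℕ → ℝ) (hε : Tendsto ε atTop (𝓝 0)) :
    ∃ (n : ℕ) (G : SimpleGraph (Fin n)) (k : ℝ),
      (G.copyCount (⊤ : SimpleGraph (Fin 3)) : ℝ) = k * (n : ℝ) ^ 2 ∧ k₀ ≤ k ∧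
      (G.copyCount (completeBipartiteGraph (Fin 3) (Fin t)) : ℝ) < k ^ t * (n : ℝ) ^ (3 - ε n) := by
  obtain ⟨γ, hγ, h⟩ := result t ht
  obtain ⟨n₀, hn₀⟩ := eventually_atTop.1 (hε.eventually (gt_mem_nhds hγ))
  obtain ⟨n, G, k, h1, h2, h3, h4⟩ := h (max k₀ 0) (max n₀ 1)
  refine ⟨n, G, k, h2, (le_max_left _ _).trans h3, h4.trans_le ?_⟩
  have hk : 0 ≤ k := (le_max_right _ _).trans h3
  have hn1 : (1 : ℝ) ≤ n := by exact_mod_cast (le_max_right n₀ 1).trans h1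
  have := hn₀ n ((le_max_left _ _).trans h1)
  exact mul_le_mul_of_nonneg_left (Real.rpow_le_rpow_of_exponent_le hn1 (by linarith)) (by positivity)

end Pool.Agent.Results.MP_14d42b_co.TriangleSupersatFails
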